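import Pool.Agent.SRV.T9

/-!
# MP_e446a9_co: automorphisms of odd prime power order of strongly regular graphs with `λ = 0`,
`μ = 2`, `k = n ^ 2 + 1`
-/

set_option autoImplicit false

namespace Pool.Agent.Results.MP_e446a9_co.OddAutomorphisms

/-- Let `Γ` be strongly regular with parameters `(v, n ^ 2 + 1, 0, 2)`, let `p` be an odd prime and `g` an
automorphism of `Γ` whose order divides `p ^ e`.  One of the following holds.
(1) `g` has no fixed vertex, and for `ε = 1` or `ε = -1`: `p` divides `n ^ 2 + 2 + ε n` and `g` moves exactly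
`n ^ 2 + 2 + ε n` vertices to adjacent vertices.
(2) `g` has exactly one fixed vertex, `p` divides `n ^ 2 + 1` and `g` moves exactly `n ^ 2 + 1` vertices to
adjacent vertices.
(3) There are `m` and `ε = 1` or `ε = -1` such that `p` divides `n - ε m`, the fixed vertices of `g` induce a
strongly regular graph with parameters `(w, m ^ 2 + 1, 0, 2)`, `2 w = m ^ 4 + 3 m ^ 2 + 4`,
`m ^ 2 + 1 ≤ n` unless `g = 1`, and if `p` does not divide `n`, the number `a` of vertices moved to adjacent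
vertices satisfies `2 (w + a) = 2 (n ^ 2 + 2) + ε n m (m ^ 2 + 1)`. -/
theorem result {V : Type*} [Fintype V] [DecidableEq V] [Nonempty V] (Γ : SimpleGraph V)
    [DecidableRel Γ.Adj] {v n : ℕ} (hΓ : Γ.IsSRGWith v (n ^ 2 + 1) 0 2) (p e : ℕ) (hp : p.Prime)
    (hp2 : p ≠ 2) (g : Equiv.Perm V) (haut : ∀ x y : V, Γ.Adj (g x) (g y) ↔ Γ.Adj x y)
    (hg : g ^ (p ^ e) = 1) :
    ((∀ x : V, g x ≠ x) ∧ ∃ ε : ℤ, (ε = 1 ∨ ε = -1) ∧ (p : ℤ) ∣ (n : ℤ) ^ 2 + 2 + ε * n ∧
      (Fintype.card {x : V // Γ.Adj x (g x)} : ℤ) = (n : ℤ) ^ 2 + 2 + ε * n) ∨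
    (Fintype.card {x : V // g x = x} = 1 ∧ p ∣ n ^ 2 + 1 ∧
      Fintype.card {x : V // Γ.Adj x (g x)} = n ^ 2 + 1) ∨
    (∃ (m w : ℕ) (ε : ℤ), (ε = 1 ∨ ε = -1) ∧ (p : ℤ) ∣ (n : ℤ) - ε * m ∧
      (Γ.induce {x : V | g x = x}).IsSRGWith w (m ^ 2 + 1) 0 2 ∧
      2 * w = m ^ 4 + 3 * m ^ 2 + 4 ∧ (g ≠ 1 → m ^ 2 + 1 ≤ n) ∧
      (¬ p ∣ n → 2 * ((w : ℤ) + Fintype.card {x : V // Γ.Adj x (g x)}) =
        2 * ((n : ℤ) ^ 2 + 2) + ε * n * m * ((m : ℤ) ^ 2 + 1))) := by
  classical
  set B : V → V → Prop := fun x y => x = y ∨ Γ.Adj x y with hB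
  have hgeo : SRT.Geo B (n ^ 2 + 2) := SRT.geo_of_srg Γ hΓ
  -- the group of automorphisms generated by `g`
  have hzp : ∀ u : Subgroup.zpowers g, ∀ x y : V, Γ.Adj x y → Γ.Adj ((u : Equiv.Perm V) x)
      ((u : Equiv.Perm V) y) := by
    rintro ⟨u, hu⟩ x y hxy
    obtain ⟨i, rfl⟩ := Subgroup.mem_zpowers_iff.1 hu
    have key : ∀ i : ℤ, ∀ x y : V, Γ.Adj ((g ^ i) x) ((g ^ i) y) ↔ Γ.Adj x y := by
      intro i
      induction i using Int.induction_on with
      | zero => intro x y; rw [zpow_zero]; rfl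
      | succ i ih =>
        intro x y
        rw [zpow_add, zpow_one, Equiv.Perm.mul_apply, Equiv.Perm.mul_apply, ih, haut]
      | pred i ih =>
        intro x y
        rw [zpow_sub, zpow_one, Equiv.Perm.mul_apply, Equiv.Perm.mul_apply, ih]
        have h1 := haut (g⁻¹ x) (g⁻¹ y)
        have e1 : ∀ z : V, g (g⁻¹ z) = z := fun z => g.apply_symm_apply z
        rw [e1, e1] at h1
        exact h1.symm
    exact (key i x y).2 hxy
  have hA : SRT.Aut (Subgroup.zpowers g) B := by
    rintro u x y (hxy | hxy)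
    · exact Or.inl (by rw [hxy])
    · exact Or.inr (hzp u x y hxy)
  set g' : Subgroup.zpowers g := ⟨g, Subgroup.mem_zpowers g⟩ with hg'
  have hgg : ∀ x : V, g' • x = g x := fun x => rfl
  have hpow : g' ^ (p ^ e) = 1 := Subtype.ext hg
  have hNN : SRT.NN B g' = Fintype.card {x : V // g x = x} +
      Fintype.card {x : V // Γ.Adj x (g x)} := by
    rw [SRT.NN, Nat.card_eq_fintype_card, Fintype.card_subtype, Fintype.card_subtype,
      Fintype.card_subtype, ← Finset.card_union_of_disjoint]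
    · congr 1
      ext x
      simp only [Finset.mem_union, Finset.mem_filter, Finset.mem_univ, true_and, hB, hgg]
      constructor
      · rintro (h1 | h1)
        · exact Or.inl h1.symm
        · exact Or.inr h1
      · rintro (h1 | h1)
        · exact Or.inl h1.symm
        · exact Or.inr h1
    · rw [Finset.disjoint_filter]
      intro x _ hx hx'
      rw [hx] at hx'
      exact Γ.irrefl hx'
  rcases SRV.odd_aut hgeo hA p hp hp2 e g' hpow with ⟨h1, ε, hε, h2, h3⟩ | ⟨h1, h2, h3⟩ |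
    ⟨⟨x₀, hx₀⟩, m, ε, hε, h1, h2, h3, h4⟩
  · left
    refine ⟨h1, ε, hε, h2, ?_⟩
    have h0 : Fintype.card {x : V // g x = x} = 0 := by
      rw [Fintype.card_eq_zero_iff]
      exact ⟨fun x => h1 x.1 x.2⟩
    rw [hNN, h0, zero_add] at h3
    exact h3
  · right; left
    have h0 : Fintype.card {x : V // g x = x} = 1 := by
      rw [← Nat.card_eq_fintype_card]
      exact h1
    refine ⟨h0, h2, ?_⟩
    rw [hNN, h0] at h3
    omega
  · right; right
    have h5 : SRT.Geo (fun x y : ({x : V | g x = x} : Set V) =>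
        x = y ∨ (Γ.induce {x : V | g x = x}).Adj x y) (m ^ 2 + 1 + 1) := by
      have e1 : (fun x y : ({x : V | g x = x} : Set V) =>
          x = y ∨ (Γ.induce {x : V | g x = x}).Adj x y) =
          (fun x y : ({x : V | g x = x} : Set V) => B x.1 y.1) := by
        funext x y
        simp only [hB, Subtype.ext_iff, SimpleGraph.induce_adj]
      rw [e1]
      exact h1
    have h6 := SRV.srg_of_geo (Γ.induce {x : V | g x = x}) h5
    have hne : Nonempty ({x : V | g x = x} : Set V) := ⟨⟨x₀, hx₀⟩⟩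
    have h7 := h5.two_mul_card'
    rw [Nat.card_eq_fintype_card] at h7
    refine ⟨m, Fintype.card ({x : V | g x = x} : Set V), ε, hε, h2, h6, h7, ?_, ?_⟩
    · intro hg1
      refine h4 ?_
      by_contra hcon
      push Not at hcon
      exact hg1 (Equiv.ext fun x => hcon x)
    · intro hpn
      have h8 := h3 hpn
      have h9 : Fintype.card {x : V // g x = x} = Fintype.card ({x : V | g x = x} : Set V) :=
        Fintype.card_congr (Equiv.refl _)
      rw [hNN, h9] at h8
      push_cast at h8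
      linarith

end Pool.Agent.Results.MP_e446a9_co.OddAutomorphisms
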