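import Pool.Agent.MP_e446a9_co_srg.Final

/-!
# MP_e446a9_co: strongly regular graphs with `λ = 0`, `μ = 2` and degree `n ^ 2 + 1`, `n = 5 mod 8`
-/

set_option autoImplicit false

namespace Pool.Agent.Results.MP_e446a9_co.PrimeObstruction

open Pool.Agent.MP_e446a9_co_srg

/-- If there is a strongly regular graph with `λ = 0`, `μ = 2` and degree `n ^ 2 + 1`, where
`n` is congruent to `5` modulo `8`, then some prime number congruent to `3` modulo `4` divides `n`.
In particular (`n = 5`) there is no strongly regular graph with the parameters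
`(352, 26, 0, 2)`. -/
theorem result {V : Type*} [Fintype V] [DecidableEq V] [Nonempty V] (G : SimpleGraph V)
    [DecidableRel G.Adj] {v n : ℕ} (hn : n % 8 = 5) (h : G.IsSRGWith v (n ^ 2 + 1) 0 2) :
    ∃ p : ℕ, p.Prime ∧ p % 4 = 3 ∧ p ∣ n := by
  obtain ⟨p, hp, hp4, hpn⟩ := (design_of_srg G h).exists_prime (by omega)
  exact ⟨p, hp, hp4, by exact_mod_cast hpn⟩

end Pool.Agent.Results.MP_e446a9_co.PrimeObstruction
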