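import Pool.Agent.SRV.Final

/-!
# MP_e446a9_co: normal subgroups of vertex-transitive groups of automorphisms of strongly regular
graphs with `λ = 0`, `μ = 2`, `k ≥ 10`; reduction of the quasiprimitive case to almost simple groups
-/

set_option autoImplicit false

namespace Pool.Agent.Results.MP_e446a9_co.Quasiprimitive

/-- Let `Γ` be strongly regular with `λ = 0`, `μ = 2` and degree `k ≥ 10`, and let the group `G` act
faithfully on the vertices by automorphisms of `Γ`, transitively.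
(1) Every orbit of every normal subgroup of `G` has length `ℓ ≤ 2` or `k ≤ 4 ℓ ^ 2`.
(2) The centraliser of a transitive subgroup of `G` has at most two elements.
(3) A transitive minimal normal subgroup of `G` is simple and not commutative.
(4) If every normal subgroup `≠ 1` of `G` is transitive, then `G` has a transitive simple noncommutative
normal subgroup with trivial centraliser; so `G` is almost simple. -/
theorem result {V G : Type*} [Fintype V] [DecidableEq V] [Nonempty V] [Group G] [MulAction G V]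
    (Γ : SimpleGraph V) [DecidableRel Γ.Adj] {v k : ℕ} (hΓ : Γ.IsSRGWith v k 0 2) (hk : 10 ≤ k)
    (haut : ∀ (g : G) (x y : V), Γ.Adj (g • x) (g • y) ↔ Γ.Adj x y)
    (hfaith : ∀ g : G, (∀ x : V, g • x = x) → g = 1)
    (htrans : ∀ x y : V, ∃ g : G, g • x = y) :
    (∀ N : Subgroup G, N.Normal → ∀ x : V, Nat.card (MulAction.orbit N x) ≤ 2 ∨
      k ≤ 4 * Nat.card (MulAction.orbit N x) ^ 2) ∧
    (∀ N : Subgroup G, (∀ x y : V, ∃ g ∈ N, g • x = y) →
      Nat.card (Subgroup.centralizer (N : Set G)) ≤ 2) ∧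
    (∀ N : Subgroup G, N.Normal → (∀ M : Subgroup G, M.Normal → M ≤ N → M = ⊥ ∨ M = N) →
      (∀ x y : V, ∃ g ∈ N, g • x = y) → IsSimpleGroup N ∧ ∃ a ∈ N, ∃ b ∈ N, a * b ≠ b * a) ∧
    ((∀ N : Subgroup G, N.Normal → N ≠ ⊥ → ∀ x y : V, ∃ g ∈ N, g • x = y) →
      ∃ N : Subgroup G, N.Normal ∧ (∀ x y : V, ∃ g ∈ N, g • x = y) ∧ IsSimpleGroup N ∧
        (∃ a ∈ N, ∃ b ∈ N, a * b ≠ b * a) ∧ Subgroup.centralizer (N : Set G) = ⊥) := by
  classical
  have hgeo := SRT.geo_of_srg Γ hΓ
  obtain ⟨n, hn⟩ := hgeo.exists_sq (by omega)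
  have hn3 : 3 ≤ n := by
    by_contra hcon
    push Not at hcon
    have : n ^ 2 ≤ 2 ^ 2 := Nat.pow_le_pow_left (by omega) 2
    omega
  have hkn : k = n ^ 2 + 1 := by omega
  rw [hn] at hgeo
  have hfin : Finite G := by
    have hinj : Function.Injective (fun g : G => (fun x : V => g • x)) := by
      intro g g' hgg
      have h1 : g'⁻¹ * g = 1 := hfaith _ fun x => by
        rw [mul_smul, inv_smul_eq_iff]
        exact congrFun hgg x
      exact (inv_mul_eq_one.1 h1).symm
    exact Finite.of_injective _ hinj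
  have S : SRV.Sit G V (fun x y => x = y ∨ Γ.Adj x y) n := by
    refine ⟨?_, hfaith, htrans, hgeo⟩
    rintro g x y (hxy | hxy)
    · exact Or.inl (by rw [hxy])
    · exact Or.inr ((haut g x y).2 hxy)
  have h1 : ∀ N : Subgroup G, N.Normal → ∀ x : V, Nat.card (MulAction.orbit N x) ≤ 2 ∨
      k ≤ 4 * Nat.card (MulAction.orbit N x) ^ 2 := by
    intro N hN x
    rcases S.orbit_length (by omega) N hN x with h | h
    · exact Or.inl h
    · right
      rw [hkn]
      nlinarith
  have h2 : ∀ N : Subgroup G, (∀ x y : V, ∃ g ∈ N, g • x = y) →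
      Nat.card (Subgroup.centralizer (N : Set G)) ≤ 2 :=
    fun N hN => S.card_centralizer_le hn3 N hN
  have h3 : ∀ N : Subgroup G, N.Normal →
      (∀ M : Subgroup G, M.Normal → M ≤ N → M = ⊥ ∨ M = N) →
      (∀ x y : V, ∃ g ∈ N, g • x = y) → IsSimpleGroup N ∧ ∃ a ∈ N, ∃ b ∈ N, a * b ≠ b * a :=
    fun N hN hmin htr => S.simple_of_min hn3 N hN hmin htr
  refine ⟨h1, h2, h3, ?_⟩
  intro hq
  have hcard : 56 ≤ Nat.card V := (SRV.card_facts hgeo hn3).2.2
  -- a nontrivial group
  have hGne : (⊤ : Subgroup G) ≠ ⊥ := by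
    intro hcon
    have hsub : Subsingleton G := by
      rw [← Subgroup.subsingleton_iff] at *
      exact subsingleton_of_bot_eq_top hcon.symm
    have hVsub : Subsingleton V := ⟨fun x y => by
      obtain ⟨g, hg⟩ := htrans x y
      rw [← hg, Subsingleton.elim g 1, one_smul]⟩
    have : Nat.card V ≤ 1 := Finite.card_le_one_iff_subsingleton.2 hVsub
    omega
  obtain ⟨N, ⟨hN, hN1⟩, hNmin⟩ : ∃ N : Subgroup G, (N.Normal ∧ N ≠ ⊥) ∧
      ∀ M : Subgroup G, M.Normal ∧ M ≠ ⊥ → Nat.card N ≤ Nat.card M := by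
    have hex : ∃ N : Subgroup G, N.Normal ∧ N ≠ ⊥ := ⟨⊤, inferInstance, hGne⟩
    obtain ⟨N, hN, hmin⟩ := (Set.toFinite {N : Subgroup G | N.Normal ∧ N ≠ ⊥}).exists_minimalFor
      (fun N : Subgroup G => Nat.card N) _ hex
    refine ⟨N, hN, fun M hM => ?_⟩
    by_contra hcon
    push Not at hcon
    exact absurd (hmin hM hcon.le) (not_le.2 hcon)
  have hmin : ∀ M : Subgroup G, M.Normal → M ≤ N → M = ⊥ ∨ M = N := by
    intro M hM hMN
    by_cases hM1 : M = ⊥
    · exact Or.inl hM1
    · exact Or.inr (Subgroup.eq_of_le_of_card_ge hMN (hNmin M ⟨hM, hM1⟩))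
  have htr := hq N hN hN1
  obtain ⟨hs, hc⟩ := h3 N hN hmin htr
  refine ⟨N, hN, htr, hs, hc, ?_⟩
  by_contra hC
  have hCn : (Subgroup.centralizer (N : Set G)).Normal := by
    have := hN
    infer_instance
  have hCt := hq _ hCn hC
  have hC2 := h2 N htr
  obtain ⟨x₀⟩ := (inferInstance : Nonempty V)
  have hle : Nat.card V ≤ Nat.card (Subgroup.centralizer (N : Set G)) := by
    refine Nat.card_le_card_of_surjective
      (fun g : Subgroup.centralizer (N : Set G) => (g : G) • x₀) ?_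
    intro y
    obtain ⟨g, hg, hgy⟩ := hCt x₀ y
    exact ⟨⟨g, hg⟩, hgy⟩
  omega

end Pool.Agent.Results.MP_e446a9_co.Quasiprimitive
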