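import Pool.Agent.SRV.Final

/-!
# MP_e446a9_co: solvable normal subgroups of vertex-transitive groups of automorphisms of strongly
regular graphs with `λ = 0`, `μ = 2`, `k ≥ 10`
-/

set_option autoImplicit false

namespace Pool.Agent.Results.MP_e446a9_co.SolvableNormal

/-- Let `Γ` be strongly regular with `λ = 0`, `μ = 2` and degree `k ≥ 10`, let the group `G` act
faithfully on the vertices by automorphisms of `Γ`, transitively, and let `N` be a solvable normal
subgroup of `G`.  Then `N` is a `2`-group and it is not transitive; if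
`k ∉ {10, 26, 37, 8101, 8282}`, no element of `N` other than `1` fixes a vertex. -/
theorem result {V G : Type*} [Fintype V] [DecidableEq V] [Nonempty V] [Group G] [MulAction G V]
    (Γ : SimpleGraph V) [DecidableRel Γ.Adj] {v k : ℕ} (hΓ : Γ.IsSRGWith v k 0 2) (hk : 10 ≤ k)
    (haut : ∀ (g : G) (x y : V), Γ.Adj (g • x) (g • y) ↔ Γ.Adj x y)
    (hfaith : ∀ g : G, (∀ x : V, g • x = x) → g = 1)
    (htrans : ∀ x y : V, ∃ g : G, g • x = y)
    (N : Subgroup G) (hN : N.Normal) (hs : Group.IsSolvable N) :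
    IsPGroup 2 N ∧ (∃ x y : V, ∀ g ∈ N, g • x ≠ y) ∧
      (k ∉ ({10, 26, 37, 8101, 8282} : Finset ℕ) → ∀ g ∈ N, ∀ x : V, g • x = x → g = 1) := by
  classical
  have hgeo := SRT.geo_of_srg Γ hΓ
  obtain ⟨n, hn⟩ := hgeo.exists_sq (by omega)
  have hn3 : 3 ≤ n := by
    by_contra hcon
    push Not at hcon
    have : n ^ 2 ≤ 2 ^ 2 := Nat.pow_le_pow_left (by omega) 2
    omega
  have hkn : k = n ^ 2 + 1 := by omega
  rw [hn] at hgeo
  have hfin : Finite G := by
    have hinj : Function.Injective (fun g : G => (fun x : V => g • x)) := by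
      intro g g' hgg
      have h1 : g'⁻¹ * g = 1 := hfaith _ fun x => by
        rw [mul_smul, inv_smul_eq_iff]
        exact congrFun hgg x
      exact (inv_mul_eq_one.1 h1).symm
    exact Finite.of_injective _ hinj
  have S : SRV.Sit G V (fun x y => x = y ∨ Γ.Adj x y) n := by
    refine ⟨?_, hfaith, htrans, hgeo⟩
    rintro g x y (hxy | hxy)
    · exact Or.inl (by rw [hxy])
    · exact Or.inr ((haut g x y).2 hxy)
  have h2 : IsPGroup 2 N := S.two_of_solvable' hn3 N hN hs
  refine ⟨h2, ?_, ?_⟩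
  · by_contra hcon
    push Not at hcon
    obtain ⟨x₀⟩ := (inferInstance : Nonempty V)
    have htr : ∀ y : V, ∃ g ∈ N, g • x₀ = y := fun y => hcon x₀ y
    have horb : MulAction.orbit N x₀ = Set.univ := by
      ext y
      refine ⟨fun _ => Set.mem_univ _, fun _ => ?_⟩
      obtain ⟨g, hg, hgy⟩ := htr y
      exact ⟨⟨g, hg⟩, hgy⟩
    have : Fact (Nat.Prime 2) := ⟨Nat.prime_two⟩
    obtain ⟨c, hc⟩ := h2.card_orbit x₀
    rw [horb, Nat.card_univ] at hc
    exact (SRV.card_facts hgeo hn3).1 c hc
  · intro hk' g hg x hx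
    refine S.semireg' hn3 ?_ N hN h2 g hg x hx
    intro j
    simp only [Finset.mem_insert, Finset.mem_singleton, not_or] at hk'
    constructor
    · intro h
      have h1 := SRT.ramanujan_nagell (n : ℤ) j (by exact_mod_cast h)
      have : n = 5 ∨ n = 90 := by omega
      rcases this with rfl | rfl <;> omega
    · intro h
      have h0 : (-(n : ℤ)) ^ 2 + (-(n : ℤ)) + 2 = 2 ^ j := by
        have : ((n ^ 2 + 2 : ℕ) : ℤ) = ((n + 2 ^ j : ℕ) : ℤ) := by rw [h]
        push_cast at this
        linarith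
      have h1 := SRT.ramanujan_nagell (-(n : ℤ)) j h0
      have : n = 3 ∨ n = 6 ∨ n = 91 := by omega
      rcases this with rfl | rfl | rfl <;> omega

end Pool.Agent.Results.MP_e446a9_co.SolvableNormal
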